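import Pool.Agent.W500.FL.Stm

set_option autoImplicit false

namespace Pool.Agent.W274.FL.LAM

open Polynomial Pool.Agent.W500.FL UniqueFactorizationMonoid

theorem main : S_LAM := by
  intro K _
  refine ⟨?_, ?_, ?_, ?_⟩
  · intro f g hf hg
    unfold lam
    rw [Multiset.card_eq_card_of_rel (factors_mul hf hg), Multiset.card_add, pow_add]
  · intro f hf
    unfold lam
    have h : Multiset.Rel Associated (factors f) {f} := by
      apply factors_unique
      · intro x hx
        exact irreducible_of_factor x hx
      · intro x hx
        rw [Multiset.mem_singleton] at hx
        rw [hx]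
        exact hf
      · rw [Multiset.prod_singleton]
        exact factors_prod hf.ne_zero
    rw [Multiset.card_eq_card_of_rel h, Multiset.card_singleton, pow_one]
  · intro f hf
    unfold lam
    have h : factors f = 0 := factors_of_isUnit hf
    rw [h, Multiset.card_zero, pow_zero]
  · intro f
    unfold lam
    exact neg_one_pow_eq_or ℤ _

end Pool.Agent.W274.FL.LAM
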